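import Mathlib

set_option autoImplicit false

/-! Tools: a Fubini bound for moving windows, Markov's inequality on an interval, integrability of
powers of the logarithm, a dichotomy for polynomials. -/

namespace Pool.Agent.R234.RO

open MeasureTheory Set Filter Topology

/-- the mean of a moving window -/
theorem fub {f : ℝ → ℝ} (hf : Continuous f) (h0 : ∀ t, 0 ≤ f t) {a b h : ℝ} (hab : a ≤ b)
    (hh : 0 ≤ h) :
    ∫ t in a..b, (∫ s in t..(t + h), f s) ≤ h * ∫ s in a..(b + h), f s := by
  have e1 : ∀ t : ℝ, ∫ s in t..(t + h), f s = ∫ u in (0:ℝ)..h, f (t + u) := by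
    intro t
    rw [intervalIntegral.integral_comp_add_left (fun x => f x) t, add_zero]
  simp_rw [e1]
  have e2 : ∫ t in a..b, (∫ u in (0:ℝ)..h, f (t + u)) = ∫ u in (0:ℝ)..h, (∫ t in a..b, f (t + u)) := by
    rw [intervalIntegral.integral_of_le hab, intervalIntegral.integral_of_le hh]
    simp_rw [intervalIntegral.integral_of_le hab, intervalIntegral.integral_of_le hh]
    apply MeasureTheory.integral_integral_swap
    rw [Measure.prod_restrict]
    have hc : Continuous (Function.uncurry fun t u : ℝ => f (t + u)) :=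
      hf.comp (continuous_fst.add continuous_snd)
    exact (hc.continuousOn.integrableOn_compact (isCompact_Icc.prod isCompact_Icc)).mono_set
      (Set.prod_mono Ioc_subset_Icc_self Ioc_subset_Icc_self)
  rw [e2]
  have e3 : ∀ u ∈ Icc (0:ℝ) h, ∫ t in a..b, f (t + u) ≤ ∫ s in a..(b + h), f s := by
    intro u hu
    rw [intervalIntegral.integral_comp_add_right (fun x => f x) u]
    refine intervalIntegral.integral_mono_interval ?_ ?_ ?_ (Eventually.of_forall h0)
      (hf.intervalIntegrable _ _)
    · linarith [hu.1]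
    · linarith [hu.1]
    · linarith [hu.2]
  calc ∫ u in (0:ℝ)..h, (∫ t in a..b, f (t + u))
      ≤ ∫ u in (0:ℝ)..h, (∫ s in a..(b + h), f s) := by
        refine intervalIntegral.integral_mono_on hh ?_ intervalIntegrable_const e3
        apply Continuous.intervalIntegrable
        exact intervalIntegral.continuous_parametric_intervalIntegral_of_continuous'
          (f := fun u t => f (t + u)) (by
            exact hf.comp (continuous_snd.add continuous_fst)) a b
    _ = h * ∫ s in a..(b + h), f s := by
        rw [intervalIntegral.integral_const]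
        simp

/-- continuity of the moving window -/
theorem win_cont {f : ℝ → ℝ} (hf : Continuous f) (c d : ℝ) :
    Continuous fun t : ℝ => ∫ s in (t + c)..(t + d), f s := by
  have h1 : ∀ a b : ℝ, IntervalIntegrable f volume a b := fun a b => hf.intervalIntegrable a b
  have h2 := intervalIntegral.continuous_primitive h1 0
  have e : (fun t : ℝ => ∫ s in (t + c)..(t + d), f s) =
      fun t => (∫ s in (0:ℝ)..(t + d), f s) - ∫ s in (0:ℝ)..(t + c), f s := by
    funext t
    rw [intervalIntegral.integral_interval_sub_left (h1 _ _) (h1 _ _)]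
  rw [e]
  exact (h2.comp (continuous_id.add continuous_const)).sub
    (h2.comp (continuous_id.add continuous_const))

/-- Markov's inequality on an interval -/
theorem mk {g : ℝ → ℝ} (hg : Continuous g) (h0 : ∀ t, 0 ≤ g t) {a b θ : ℝ} (hab : a ≤ b) :
    θ * volume.real {t : ℝ | t ∈ Ioc a b ∧ θ ≤ g t} ≤ ∫ t in a..b, g t := by
  rw [intervalIntegral.integral_of_le hab]
  have h1 := mul_meas_ge_le_integral_of_nonneg (μ := volume.restrict (Ioc a b)) (f := g)
    (Eventually.of_forall h0) (hg.integrableOn_Ioc) θ
  have e : (volume.restrict (Ioc a b)).real {x | θ ≤ g x} =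
      volume.real {t : ℝ | t ∈ Ioc a b ∧ θ ≤ g t} := by
    rw [measureReal_restrict_apply (measurableSet_le measurable_const hg.measurable)]
    congr 1
    ext t
    simp [and_comm]
  rw [e] at h1
  exact h1

/-- integrability of powers of the logarithm -/
theorem logpow_int (n : ℕ) (a b : ℝ) :
    IntervalIntegrable (fun t : ℝ => Real.log t ^ n) volume a b := by
  have h01 : IntervalIntegrable (fun t : ℝ => Real.log t ^ n) volume 0 1 := by
    rcases Nat.eq_zero_or_pos n with rfl | hn
    · simp
    have hn' : (0:ℝ) < n := by exact_mod_cast hn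
    have h1 : IntervalIntegrable (fun t : ℝ => (2 * n : ℝ) ^ n * t ^ (-(1 / 2) : ℝ)) volume 0 1 :=
      (intervalIntegral.intervalIntegrable_rpow' (by norm_num)).const_mul _
    rw [intervalIntegrable_iff_integrableOn_Ioc_of_le zero_le_one] at h1 ⊢
    refine Integrable.mono' h1 ?_ ?_
    · exact (Real.measurable_log.pow_const n).aestronglyMeasurable
    · refine (ae_restrict_iff' measurableSet_Ioc).2 (Eventually.of_forall fun t ht => ?_)
      have ht0 : 0 < t := ht.1
      have h2 := Real.abs_log_mul_self_rpow_lt t (1 / (2 * n)) ht.1 ht.2 (by positivity)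
      rw [abs_mul, abs_of_pos (Real.rpow_pos_of_pos ht0 _)] at h2
      have h3 : (|Real.log t| * t ^ (1 / (2 * n) : ℝ)) ^ n ≤ (2 * n : ℝ) ^ n := by
        refine pow_le_pow_left₀ (by positivity) ?_ n
        refine h2.le.trans (le_of_eq ?_)
        field_simp
      rw [mul_pow, ← Real.rpow_natCast (t ^ (1 / (2 * n) : ℝ)) n, ← Real.rpow_mul ht0.le] at h3
      have e4 : (1 / (2 * n) * n : ℝ) = 1 / 2 := by field_simp
      rw [e4] at h3
      rw [Real.norm_eq_abs, abs_pow, Real.rpow_neg ht0.le, ← div_eq_mul_inv,
        le_div_iff₀ (Real.rpow_pos_of_pos ht0 _)]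
      exact h3
  have hpos : ∀ b : ℝ, 0 ≤ b → IntervalIntegrable (fun t : ℝ => Real.log t ^ n) volume 0 b := by
    intro b hb
    rcases le_total b 1 with hb1 | hb1
    · exact h01.mono_set (by rw [uIcc_of_le hb, uIcc_of_le zero_le_one]; exact Icc_subset_Icc_right hb1)
    · refine h01.trans ?_
      refine ContinuousOn.intervalIntegrable ?_
      rw [uIcc_of_le hb1]
      intro t ht
      have : t ≠ 0 := by linarith [ht.1]
      exact ((Real.continuousAt_log this).pow n).continuousWithinAt
  have hall : ∀ b : ℝ, IntervalIntegrable (fun t : ℝ => Real.log t ^ n) volume 0 b := by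
    intro b
    rcases le_total 0 b with hb | hb
    · exact hpos b hb
    · have h1 := hpos (-b) (by linarith)
      rw [IntervalIntegrable.iff_comp_neg]
      simpa [Real.log_neg_eq_log] using h1
  exact (hall a).symm.trans (hall b)

theorem logpow_int' (n : ℕ) (r : ℝ) (hr : 0 < r) (a b : ℝ) :
    IntervalIntegrable (fun t : ℝ => Real.log (t / r) ^ n) volume a b := by
  have h := (logpow_int n (a / r) (b / r)).comp_mul_right (c := 1 / r)
  have h2 : IntervalIntegrable (fun x : ℝ => Real.log (x * (1 / r)) ^ n) volume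
      (a / r / (1 / r)) (b / r / (1 / r)) := h
  have e1 : a / r / (1 / r) = a := by field_simp
  have e2 : b / r / (1 / r) = b := by field_simp
  rw [e1, e2] at h2
  simpa [div_eq_mul_inv] using h2

theorem poly_int (P : Polynomial ℂ) (r : ℝ) (hr : 0 < r) (a b : ℝ) :
    IntervalIntegrable (fun t : ℝ => P.eval ((Real.log (t / r) : ℝ) : ℂ)) volume a b := by
  simp_rw [Polynomial.eval_eq_sum_range]
  have e : (fun t : ℝ => ∑ i ∈ Finset.range (P.natDegree + 1),
      P.coeff i * ((Real.log (t / r) : ℝ) : ℂ) ^ i) =
      ∑ i ∈ Finset.range (P.natDegree + 1), fun t : ℝ => P.coeff i * ((Real.log (t / r) : ℝ) : ℂ) ^ i := by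
    funext t
    simp
  rw [e]
  refine IntervalIntegrable.sum _ fun i _ => ?_
  have h1 : IntervalIntegrable (fun t : ℝ => (((Real.log (t / r)) ^ i : ℝ) : ℂ)) volume a b := by
    have := logpow_int' i r hr a b
    exact ⟨this.1.ofReal, this.2.ofReal⟩
  have h2 := h1.const_mul (P.coeff i)
  simpa using h2

/-- real part of a polynomial -/
noncomputable def rp (P : Polynomial ℂ) : Polynomial ℝ :=
  ∑ i ∈ Finset.range (P.natDegree + 1), Polynomial.C (P.coeff i).re * Polynomial.X ^ i

theorem rp_eval (P : Polynomial ℂ) (x : ℝ) : (rp P).eval x = (P.eval (x : ℂ)).re := by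
  rw [rp, Polynomial.eval_finsetSum, Polynomial.eval_eq_sum_range (x : ℂ), Complex.re_sum]
  refine Finset.sum_congr rfl fun i _ => ?_
  rw [← Complex.ofReal_pow, Complex.re_mul_ofReal]
  simp

theorem rp_int (P : Polynomial ℂ) (r : ℝ) (hr : 0 < r) (a b : ℝ) :
    IntervalIntegrable (fun t : ℝ => (rp P).eval (Real.log (t / r))) volume a b := by
  simp_rw [rp_eval]
  have := poly_int P r hr a b
  exact ⟨this.1.re, this.2.re⟩

theorem rp_integral (P : Polynomial ℂ) (r : ℝ) (hr : 0 < r) (a b : ℝ) :
    (∫ t in a..b, P.eval ((Real.log (t / r) : ℝ) : ℂ)).re =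
      ∫ t in a..b, (rp P).eval (Real.log (t / r)) := by
  simp_rw [rp_eval]
  have := Complex.reCLM.intervalIntegral_comp_comm (poly_int P r hr a b)
  simpa using this.symm

/-- dichotomy for real polynomials -/
theorem dich (Q : Polynomial ℝ) : (∀ᶠ x : ℝ in atTop, 0 ≤ Q.eval x) ∨
    (∀ᶠ x : ℝ in atTop, Q.eval x ≤ 0) := by
  rcases lt_or_ge 0 Q.degree with hd | hd
  · rcases le_total 0 Q.leadingCoeff with hl | hl
    · left
      exact (Q.tendsto_atTop_of_leadingCoeff_nonneg hd hl).eventually_ge_atTop 0
    · right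
      exact (Q.tendsto_atBot_of_leadingCoeff_nonpos hd hl).eventually_le_atBot 0
  · rw [Polynomial.eq_C_of_degree_le_zero hd]
    simp only [Polynomial.eval_C]
    rcases le_total 0 (Q.coeff 0) with h | h
    · exact Or.inl (Eventually.of_forall fun _ => h)
    · exact Or.inr (Eventually.of_forall fun _ => h)

end Pool.Agent.R234.RO
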