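import Mathlib
import Pool.Agent.R234.RO.Tool

set_option autoImplicit false

/-! Windows of length `≤ κ (log X) ^ (2 k - 1)` on which the `2k`-th moment is not small are rare. -/

namespace Pool.Agent.R234.RO

open MeasureTheory Set Filter Topology

/-- the two facts on the zeta function that are used -/
structure Hyp (Z : ℝ → ℝ) : Prop where
  cont : Continuous Z
  nn : ∀ t, 0 ≤ Z t
  sup : ∃ C t0 : ℝ, 0 < C ∧ ∀ t, t0 ≤ t → Z t ^ 4 ≤
    C * (Real.log t * (∫ s in (t - 3 * Real.log t)..(t + 3 * Real.log t), Z s ^ 4) + 1)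
  four : ∃ C t0 : ℝ, 0 < C ∧ ∀ T, t0 ≤ T → ∫ s in (0:ℝ)..T, Z s ^ 4 ≤ C * (T * Real.log T ^ 4)

theorem ev_log (n : ℕ) (A : ℝ) : ∀ᶠ X : ℝ in atTop, A * Real.log X ^ n ≤ X := by
  have h := (Real.isLittleO_pow_log_id_atTop (n := n)).bound (c := 1 / (|A| + 1)) (by positivity)
  filter_upwards [h, eventually_ge_atTop 1] with X hX hX1
  have h0 : 0 ≤ Real.log X := Real.log_nonneg hX1
  simp only [id] at hX
  rw [Real.norm_of_nonneg (by positivity), Real.norm_of_nonneg (by linarith)] at hX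
  have hA : 0 < |A| + 1 := by positivity
  have h1 : (|A| + 1) * Real.log X ^ n ≤ X := by
    have := mul_le_mul_of_nonneg_left hX hA.le
    calc (|A| + 1) * Real.log X ^ n ≤ (|A| + 1) * (1 / (|A| + 1) * X) := this
      _ = X := by field_simp
  have h2 : A * Real.log X ^ n ≤ (|A| + 1) * Real.log X ^ n := by
    refine mul_le_mul_of_nonneg_right ?_ (by positivity)
    linarith [le_abs_self A]
  linarith

theorem log3 {X Y : ℝ} (hX : 3 ≤ X) (h0 : 0 < Y) (hY : Y ≤ 3 * X) : Real.log Y ≤ 2 * Real.log X := by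
  calc Real.log Y ≤ Real.log (X ^ 2) := Real.log_le_log h0 (by nlinarith)
    _ = 2 * Real.log X := by rw [Real.log_pow]; norm_num

/-- the fourth moment up to `3 X` -/
theorem four3 {Z : ℝ → ℝ} (H : Hyp Z) : ∃ C : ℝ, 0 < C ∧ ∀ᶠ X : ℝ in atTop,
    ∫ s in (0:ℝ)..(3 * X), Z s ^ 4 ≤ C * X * Real.log X ^ 4 := by
  obtain ⟨C, t0, hC, h⟩ := H.four
  refine ⟨48 * C, by positivity, ?_⟩
  filter_upwards [eventually_ge_atTop 3, eventually_ge_atTop t0] with X hX ht0
  have h1 := h (3 * X) (by linarith)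
  have h2 : Real.log (3 * X) ≤ 2 * Real.log X := log3 hX (by linarith) le_rfl
  have h3 : 0 ≤ Real.log (3 * X) := Real.log_nonneg (by linarith)
  have h4 : Real.log (3 * X) ^ 4 ≤ (2 * Real.log X) ^ 4 := pow_le_pow_left₀ h3 h2 4
  calc ∫ s in (0:ℝ)..(3 * X), Z s ^ 4 ≤ C * (3 * X * Real.log (3 * X) ^ 4) := h1
    _ ≤ C * (3 * X * (2 * Real.log X) ^ 4) := by gcongr
    _ = _ := by ring

theorem realmono {a b : ℝ} {A B : Set ℝ} (hAB : A ⊆ B) (hB : B ⊆ Ioc a b) :
    volume.real A ≤ volume.real B :=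
  measureReal_mono hAB ((measure_mono hB).trans_lt (by simp)).ne

/-- large values are rare, as seen from moving windows -/
theorem big {Z : ℝ → ℝ} (H : Hyp Z) (j : ℕ) {r η : ℝ} (hr : 0 < r) (hη : 0 < η) :
    ∃ κ : ℝ, 0 < κ ∧ ∀ᶠ X : ℝ in atTop, ∀ h : ℝ, Real.log X ≤ h →
      h ≤ κ * Real.log X ^ (2 * j + 3) →
      volume.real {t : ℝ | t ∈ Ioc X (2 * X) ∧
        ∃ s ∈ Icc t (t + h), r * Real.log X ^ (j + 4) < Z s ^ 2} ≤ η * X := by
  obtain ⟨C, t0, hC, hsup⟩ := H.sup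
  obtain ⟨C2, hC2, hfour⟩ := four3 H
  refine ⟨η * r ^ 2 / (112 * C * C2), by positivity, ?_⟩
  set κ : ℝ := η * r ^ 2 / (112 * C * C2) with hκ
  have hκ0 : 0 < κ := by positivity
  filter_upwards [eventually_ge_atTop 3, eventually_ge_atTop t0, hfour,
    ev_log (2 * j + 3) (2 * κ), ev_log 1 32,
    (Real.tendsto_log_atTop).eventually_ge_atTop (max 1 (2 * C / r ^ 2))] with
    X hX ht0 h4 hl1 hl2 hLL h hLh hhκ
  set L : ℝ := Real.log X with hL
  have hL1 : 1 ≤ L := (le_max_left _ _).trans hLL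
  have hL2 : 2 * C / r ^ 2 ≤ L := (le_max_right _ _).trans hLL
  have hL0 : 0 < L := by linarith
  have hh0 : 0 < h := by linarith
  rw [pow_one] at hl2
  have hhX : h + 8 * L ≤ X := by nlinarith
  set f : ℝ → ℝ := fun s => Z s ^ 4 with hf
  have hfc : Continuous f := H.cont.pow 4
  have hf0 : ∀ t, 0 ≤ f t := fun t => by positivity
  set w : ℝ → ℝ := fun s => ∫ u in (s + (-(7 * L)))..(s + 7 * L), f u with hw
  have hwc : Continuous w := win_cont hfc _ _
  have hw0 : ∀ s, 0 ≤ w s := fun s =>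
    intervalIntegral.integral_nonneg (by linarith) fun u _ => hf0 u
  set G : ℝ → ℝ := fun t => ∫ s in (t + 0)..(t + (h + L)), w s with hG
  have hGc : Continuous G := win_cont hwc _ _
  have hG0 : ∀ s, 0 ≤ G s := fun s =>
    intervalIntegral.integral_nonneg (by linarith) fun u _ => hw0 u
  set Θ : ℝ := (r * L ^ (j + 4)) ^ 2 / (4 * C) with hΘ
  have hΘ0 : 0 < Θ := by positivity
  have hpow : 2 * C ≤ (r * L ^ (j + 4)) ^ 2 := by
    have h1 : 2 * C ≤ r ^ 2 * L := by
      rw [div_le_iff₀ (by positivity)] at hL2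
      linarith
    have h2 : L ≤ (L ^ (j + 4)) ^ 2 := by
      calc L = L ^ 1 := (pow_one L).symm
        _ ≤ L ^ ((j + 4) * 2) := pow_le_pow_right₀ hL1 (by omega)
        _ = _ := by rw [pow_mul]
    calc 2 * C ≤ r ^ 2 * L := h1
      _ ≤ r ^ 2 * (L ^ (j + 4)) ^ 2 := by gcongr
      _ = _ := by ring
  -- inclusion
  have hsub : {t : ℝ | t ∈ Ioc X (2 * X) ∧ ∃ s ∈ Icc t (t + h), r * L ^ (j + 4) < Z s ^ 2} ⊆
      {t : ℝ | t ∈ Ioc X (2 * X) ∧ Θ ≤ G t} := by
    rintro t ⟨ht, s, hs, hZ⟩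
    refine ⟨ht, ?_⟩
    have hsX : X ≤ s := by linarith [ht.1, hs.1]
    have hs3 : s ≤ 3 * X := by linarith [ht.2, hs.2]
    have hlog : Real.log s ≤ 2 * L := log3 hX (by linarith) hs3
    have hlog0 : 0 ≤ Real.log s := Real.log_nonneg (by linarith)
    have h1 := hsup s (by linarith)
    have h2 : (r * L ^ (j + 4)) ^ 2 < Z s ^ 4 := by
      calc (r * L ^ (j + 4)) ^ 2 < (Z s ^ 2) ^ 2 := by
            apply pow_lt_pow_left₀ hZ (by positivity) (by norm_num)
        _ = Z s ^ 4 := by ring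
    set J : ℝ := ∫ u in (s - 6 * L)..(s + 6 * L), f u with hJ
    have hJ0 : 0 ≤ J := intervalIntegral.integral_nonneg (by linarith) fun u _ => hf0 u
    have h3 : ∫ u in (s - 3 * Real.log s)..(s + 3 * Real.log s), Z u ^ 4 ≤ J := by
      refine intervalIntegral.integral_mono_interval ?_ ?_ ?_ (Eventually.of_forall hf0)
        (hfc.intervalIntegrable _ _) <;> linarith
    have h4 : Z s ^ 4 ≤ C * (2 * L * J + 1) := by
      refine h1.trans ?_
      have : Real.log s * (∫ u in (s - 3 * Real.log s)..(s + 3 * Real.log s), Z u ^ 4) ≤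
          2 * L * J := mul_le_mul hlog h3
            (intervalIntegral.integral_nonneg (by linarith) fun u _ => hf0 u) (by positivity)
      gcongr
    have h5 : Θ ≤ L * J := by
      rw [hΘ, div_le_iff₀ (by positivity)]
      nlinarith
    have h6 : ∀ v ∈ Icc s (s + L), J ≤ w v := by
      intro v hv
      refine intervalIntegral.integral_mono_interval ?_ ?_ ?_ (Eventually.of_forall hf0)
        (hfc.intervalIntegrable _ _)
      · linarith [hv.1, hv.2]
      · linarith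
      · linarith [hv.1, hv.2]
    have h7 : L * J ≤ ∫ v in s..(s + L), w v := by
      have : ∫ v in s..(s + L), J ≤ ∫ v in s..(s + L), w v :=
        intervalIntegral.integral_mono_on (by linarith) intervalIntegrable_const
          (hwc.intervalIntegrable _ _) h6
      rw [intervalIntegral.integral_const] at this
      simpa using this
    have h8 : ∫ v in s..(s + L), w v ≤ G t := by
      refine intervalIntegral.integral_mono_interval ?_ ?_ ?_ (Eventually.of_forall hw0)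
        (hwc.intervalIntegrable _ _)
      · linarith [hs.1]
      · linarith
      · linarith [hs.2]
    linarith
  refine (realmono hsub (fun t ht => ht.1)).trans ?_
  have hm := mk hGc hG0 (a := X) (b := 2 * X) (θ := Θ) (by linarith)
  have hG1 : ∫ t in X..(2 * X), G t ≤ (h + L) * ∫ s in X..(2 * X + (h + L)), w s := by
    have := fub hwc hw0 (a := X) (b := 2 * X) (h := h + L) (by linarith) (by linarith)
    simpa [hG] using this
  have hw1 : ∫ s in X..(2 * X + (h + L)), w s ≤ 14 * L * ∫ u in (0:ℝ)..(3 * X), f u := by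
    have e1 : ∫ s in X..(2 * X + (h + L)), w s =
        ∫ v in (X - 7 * L)..(2 * X + (h + L) - 7 * L), (∫ u in v..(v + 14 * L), f u) := by
      have := intervalIntegral.integral_comp_sub_right
        (a := X) (b := 2 * X + (h + L)) (fun v => ∫ u in v..(v + 14 * L), f u) (7 * L)
      rw [← this]
      refine intervalIntegral.integral_congr fun s _ => ?_
      simp only [hw]
      congr 1
      ring
    rw [e1]
    have h1 := fub hfc hf0 (a := X - 7 * L) (b := 2 * X + (h + L) - 7 * L) (h := 14 * L)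
      (by linarith) (by linarith)
    refine h1.trans ?_
    have h2 : ∫ s in (X - 7 * L)..(2 * X + (h + L) - 7 * L + 14 * L), f s ≤
        ∫ u in (0:ℝ)..(3 * X), f u := by
      refine intervalIntegral.integral_mono_interval ?_ ?_ ?_ (Eventually.of_forall hf0)
        (hfc.intervalIntegrable _ _) <;> linarith
    exact mul_le_mul_of_nonneg_left h2 (by linarith)
  have hfin : Θ * volume.real {t : ℝ | t ∈ Ioc X (2 * X) ∧ Θ ≤ G t} ≤ Θ * (η * X) := by
    have e2 : (L ^ (j + 4)) ^ 2 = L ^ (2 * j + 3) * L ^ 5 := by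
      rw [← pow_mul, ← pow_add]
      congr 1
      ring
    calc Θ * volume.real {t : ℝ | t ∈ Ioc X (2 * X) ∧ Θ ≤ G t} ≤ ∫ t in X..(2 * X), G t := hm
      _ ≤ (h + L) * (14 * L * (C2 * X * L ^ 4)) := by
          refine hG1.trans (mul_le_mul_of_nonneg_left (hw1.trans ?_) (by linarith))
          exact mul_le_mul_of_nonneg_left h4 (by linarith)
      _ ≤ (2 * (κ * L ^ (2 * j + 3))) * (14 * L * (C2 * X * L ^ 4)) := by
          refine mul_le_mul_of_nonneg_right (by linarith) (by positivity)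
      _ = Θ * (η * X) := by
          rw [hΘ, mul_pow, e2, hκ]
          field_simp
          ring
  exact le_of_mul_le_mul_left hfin hΘ0

/-- windows without large values and with a large `2k`-th moment are rare -/
theorem sml {Z : ℝ → ℝ} (H : Hyp Z) (j : ℕ) {C2 r η m1 : ℝ} (hC2 : 0 < C2)
    (hr : 0 < r) (hm1 : 0 < m1) (hrr : C2 * r ^ j ≤ η * m1) {X h : ℝ}
    (h4 : ∫ s in (0:ℝ)..(3 * X), Z s ^ 4 ≤ C2 * X * Real.log X ^ 4) (hX : 3 ≤ X)
    (hh : 0 < h) (hhX : h ≤ X) :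
      volume.real {t : ℝ | t ∈ Ioc X (2 * X) ∧
        (∀ s ∈ Icc t (t + h), Z s ^ 2 ≤ r * Real.log X ^ (j + 4)) ∧
        m1 * h * Real.log X ^ ((j + 2) ^ 2) < ∫ s in t..(t + h), Z s ^ (2 * (j + 2))} ≤ η * X := by
  set L : ℝ := Real.log X with hL
  have hL0 : 0 < L := Real.log_pos (by linarith)
  set f : ℝ → ℝ := fun s => Z s ^ 4 with hf
  have hfc : Continuous f := H.cont.pow 4
  have hf0 : ∀ t, 0 ≤ f t := fun t => by positivity
  set G : ℝ → ℝ := fun t => ∫ s in (t + 0)..(t + h), f s with hG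
  have hGc : Continuous G := win_cont hfc _ _
  have hG0 : ∀ s, 0 ≤ G s := fun s =>
    intervalIntegral.integral_nonneg (by linarith) fun u _ => hf0 u
  set Θ : ℝ := m1 * h * L ^ 4 / r ^ j with hΘ
  have hΘ0 : 0 < Θ := by positivity
  have hsub : {t : ℝ | t ∈ Ioc X (2 * X) ∧
        (∀ s ∈ Icc t (t + h), Z s ^ 2 ≤ r * L ^ (j + 4)) ∧
        m1 * h * L ^ ((j + 2) ^ 2) < ∫ s in t..(t + h), Z s ^ (2 * (j + 2))} ⊆
      {t : ℝ | t ∈ Ioc X (2 * X) ∧ Θ ≤ G t} := by
    rintro t ⟨ht, hs, hI⟩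
    refine ⟨ht, ?_⟩
    have h1 : ∫ s in t..(t + h), Z s ^ (2 * (j + 2)) ≤
        ∫ s in t..(t + h), (r * L ^ (j + 4)) ^ j * f s := by
      refine intervalIntegral.integral_mono_on (by linarith)
        ((H.cont.pow _).intervalIntegrable _ _) ((hfc.const_mul _).intervalIntegrable _ _) ?_
      intro s hs'
      have e : Z s ^ (2 * (j + 2)) = (Z s ^ 2) ^ j * Z s ^ 4 := by
        rw [← pow_mul, ← pow_add]
        congr 1
      rw [e]
      exact mul_le_mul_of_nonneg_right (pow_le_pow_left₀ (by positivity) (hs s hs') j) (hf0 s)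
    rw [intervalIntegral.integral_const_mul] at h1
    have e2 : L ^ ((j + 2) ^ 2) = (L ^ (j + 4)) ^ j * L ^ 4 := by
      rw [← pow_mul, ← pow_add]
      congr 1
      ring
    have h2 := hI.trans_le h1
    rw [e2, mul_pow] at h2
    have hLj : 0 < (L ^ (j + 4)) ^ j := by positivity
    have h3 : m1 * h * L ^ 4 < r ^ j * ∫ s in t..(t + h), f s := by
      refine lt_of_mul_lt_mul_left ?_ hLj.le
      calc (L ^ (j + 4)) ^ j * (m1 * h * L ^ 4) = m1 * h * ((L ^ (j + 4)) ^ j * L ^ 4) := by ring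
        _ < r ^ j * (L ^ (j + 4)) ^ j * ∫ s in t..(t + h), f s := h2
        _ = _ := by ring
    rw [hΘ, div_le_iff₀ (by positivity)]
    simp only [hG, add_zero]
    linarith
  refine (realmono hsub (fun t ht => ht.1)).trans ?_
  have hm := mk hGc hG0 (a := X) (b := 2 * X) (θ := Θ) (by linarith)
  have hG1 : ∫ t in X..(2 * X), G t ≤ h * ∫ s in X..(2 * X + h), f s := by
    have := fub hfc hf0 (a := X) (b := 2 * X) (h := h) (by linarith) (by linarith)
    simpa [hG] using this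
  have h2 : ∫ s in X..(2 * X + h), f s ≤ ∫ u in (0:ℝ)..(3 * X), f u := by
    refine intervalIntegral.integral_mono_interval ?_ ?_ ?_ (Eventually.of_forall hf0)
      (hfc.intervalIntegrable _ _) <;> linarith
  have hfin : Θ * volume.real {t : ℝ | t ∈ Ioc X (2 * X) ∧ Θ ≤ G t} ≤ Θ * (η * X) := by
    calc Θ * volume.real {t : ℝ | t ∈ Ioc X (2 * X) ∧ Θ ≤ G t} ≤ ∫ t in X..(2 * X), G t := hm
      _ ≤ h * (C2 * X * L ^ 4) :=
          hG1.trans (mul_le_mul_of_nonneg_left (h2.trans h4) hh.le)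
      _ = (C2 * r ^ j) * (h * X * L ^ 4 / r ^ j) := by field_simp
      _ ≤ (η * m1) * (h * X * L ^ 4 / r ^ j) := by
          refine mul_le_mul_of_nonneg_right hrr (by positivity)
      _ = Θ * (η * X) := by
          rw [hΘ]
          ring
  exact le_of_mul_le_mul_left hfin hΘ0

/-- windows with a large `2k`-th moment are rare, `k = j + 2` -/
theorem bad {Z : ℝ → ℝ} (H : Hyp Z) (j : ℕ) (hj : 1 ≤ j) {η m1 : ℝ} (hη : 0 < η) (hm1 : 0 < m1) :
    ∃ κ : ℝ, 0 < κ ∧ ∀ᶠ X : ℝ in atTop, ∀ h : ℝ, Real.log X ≤ h →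
      h ≤ κ * Real.log X ^ (2 * j + 3) →
      volume.real {t : ℝ | t ∈ Ioc X (2 * X) ∧
        m1 * h * Real.log X ^ ((j + 2) ^ 2) < ∫ s in t..(t + h), Z s ^ (2 * (j + 2))} ≤ η * X := by
  obtain ⟨C2, hC2, hfour⟩ := four3 H
  set r : ℝ := min 1 (η / 2 * m1 / C2) with hr
  have hr0 : 0 < r := by
    rw [hr]
    positivity
  have hr1 : r ≤ 1 := min_le_left _ _
  have hrr : C2 * r ^ j ≤ η / 2 * m1 := by
    have h1 : r ^ j ≤ r := by
      calc r ^ j ≤ r ^ 1 := pow_le_pow_of_le_one hr0.le hr1 hj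
        _ = r := pow_one r
    have h2 : r ≤ η / 2 * m1 / C2 := min_le_right _ _
    have h3 := h1.trans h2
    rw [le_div_iff₀ hC2] at h3
    linarith
  obtain ⟨κ, hκ, hbig⟩ := big H j hr0 (half_pos hη)
  refine ⟨κ, hκ, ?_⟩
  filter_upwards [hbig, hfour, eventually_ge_atTop 3, ev_log (2 * j + 3) κ] with
    X hb h4 hX hl h hLh hhκ
  have hL0 : 0 < Real.log X := Real.log_pos (by linarith)
  have h1 := hb h hLh hhκ
  have h2 := sml H j hC2 hr0 hm1 hrr h4 hX (lt_of_lt_of_le hL0 hLh) (hhκ.trans hl)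
  have hsub : {t : ℝ | t ∈ Ioc X (2 * X) ∧
        m1 * h * Real.log X ^ ((j + 2) ^ 2) < ∫ s in t..(t + h), Z s ^ (2 * (j + 2))} ⊆
      {t : ℝ | t ∈ Ioc X (2 * X) ∧ ∃ s ∈ Icc t (t + h), r * Real.log X ^ (j + 4) < Z s ^ 2} ∪
      {t : ℝ | t ∈ Ioc X (2 * X) ∧
        (∀ s ∈ Icc t (t + h), Z s ^ 2 ≤ r * Real.log X ^ (j + 4)) ∧
        m1 * h * Real.log X ^ ((j + 2) ^ 2) < ∫ s in t..(t + h), Z s ^ (2 * (j + 2))} := by
    rintro t ⟨ht, hI⟩
    by_cases hc : ∃ s ∈ Icc t (t + h), r * Real.log X ^ (j + 4) < Z s ^ 2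
    · exact Or.inl ⟨ht, hc⟩
    · push Not at hc
      exact Or.inr ⟨ht, hc, hI⟩
  refine (realmono hsub (a := X) (b := 2 * X) ?_).trans ((measureReal_union_le _ _).trans ?_)
  · rintro t (ht | ht)
    · exact ht.1
    · exact ht.1
  · linarith

end Pool.Agent.R234.RO
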