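import Mathlib
import Pool.Agent.R234.RO.Bad

set_option autoImplicit false

/-! The remainder of the `2k`-th moment is large for most `T`: the abstract argument. -/

namespace Pool.Agent.R234.RO

open MeasureTheory Set Filter Topology

/-- a remainder that decreases on all windows outside a rare set is large for most `T` -/
theorem caseB {Z R : ℝ → ℝ} (H : Hyp Z) (j : ℕ) (hj : 1 ≤ j) (hRc : Continuous R)
    (hdec : ∃ m1 : ℝ, 0 < m1 ∧ ∀ᶠ X : ℝ in atTop, ∀ t ∈ Ioc X (2 * X), ∀ h : ℝ, 0 ≤ h → h ≤ X →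
      R (t + h) - R t ≤ (∫ s in t..(t + h), Z s ^ (2 * (j + 2))) -
        2 * m1 * h * Real.log X ^ ((j + 2) ^ 2))
    {δ : ℝ} (hδ : 0 < δ) :
    ∃ c : ℝ, 0 < c ∧ ∀ᶠ X : ℝ in atTop,
      volume.real {T : ℝ | T ∈ Ioc X (2 * X) ∧
        |R T| < c * Real.log X ^ ((j + 2) ^ 2 + (2 * j + 3))} ≤ δ * X := by
  obtain ⟨m1, hm1, hdec⟩ := hdec
  obtain ⟨m, hm⟩ := exists_nat_gt (4 / δ)
  have hm0 : 0 < (m:ℝ) := lt_trans (by positivity) hm
  have hη : 0 < δ / (2 * m) := by positivity
  obtain ⟨κ, hκ, hbad⟩ := bad H j hj hη hm1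
  refine ⟨m1 * κ / (2 * m), by positivity, ?_⟩
  filter_upwards [hdec, hbad, eventually_ge_atTop 3, ev_log (2 * j + 3) κ,
    (Real.tendsto_log_atTop).eventually_ge_atTop (max 1 (m / κ))] with X hd hb hX hl hLL
  set L : ℝ := Real.log X with hL
  have hL1 : 1 ≤ L := (le_max_left _ _).trans hLL
  have hL2 : m / κ ≤ L := (le_max_right _ _).trans hLL
  have hL0 : 0 < L := by linarith
  set h0 : ℝ := κ * L ^ (2 * j + 3) / m with hh0
  have hh0pos : 0 < h0 := by positivity
  have hmh : m * h0 = κ * L ^ (2 * j + 3) := by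
    rw [hh0]
    field_simp
  have hLh : L ≤ h0 := by
    rw [hh0, le_div_iff₀ hm0]
    rw [div_le_iff₀ hκ] at hL2
    have h1 : L ^ 2 ≤ L ^ (2 * j + 3) := pow_le_pow_right₀ hL1 (by omega)
    calc L * m ≤ L * (L * κ) := by gcongr
      _ = κ * L ^ 2 := by ring
      _ ≤ κ * L ^ (2 * j + 3) := by gcongr
  have hdh : ∀ d : ℕ, 1 ≤ d → d < m → L ≤ d * h0 ∧ d * h0 ≤ κ * L ^ (2 * j + 3) := by
    intro d hd1 hdm
    have h1 : (1:ℝ) ≤ d := by exact_mod_cast hd1
    have h2 : (d:ℝ) ≤ m := by exact_mod_cast hdm.le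
    constructor
    · nlinarith
    · rw [← hmh]
      exact mul_le_mul_of_nonneg_right h2 hh0pos.le
  set Bd : ℕ → Set ℝ := fun d => {t : ℝ | t ∈ Ioc X (2 * X) ∧
    m1 * (d * h0) * L ^ ((j + 2) ^ 2) < ∫ s in t..(t + d * h0), Z s ^ (2 * (j + 2))} with hBd
  have hBdm : ∀ d, MeasurableSet (Bd d) := by
    intro d
    have h1 : Measurable fun t : ℝ => ∫ s in t..(t + d * h0), Z s ^ (2 * (j + 2)) := by
      have := (win_cont (H.cont.pow (2 * (j + 2))) 0 (d * h0)).measurable
      simpa using this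
    have h2 : MeasurableSet {t : ℝ | m1 * (d * h0) * L ^ ((j + 2) ^ 2) <
        ∫ s in t..(t + d * h0), Z s ^ (2 * (j + 2))} := measurableSet_lt measurable_const h1
    exact measurableSet_Ioc.inter h2
  set S : Set ℝ := {T : ℝ | T ∈ Ioc X (2 * X) ∧
    |R T| < m1 * κ / (2 * m) * L ^ ((j + 2) ^ 2 + (2 * j + 3))} with hS
  have hSm : MeasurableSet S :=
    measurableSet_Ioc.inter (measurableSet_lt hRc.abs.measurable measurable_const)
  set S' : Set ℝ := S \ ⋃ d ∈ Finset.Ico 1 m, Bd d with hS'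
  have hS'm : MeasurableSet S' :=
    hSm.diff (Finset.measurableSet_biUnion _ fun d _ => hBdm d)
  set Tr : ℕ → Set ℝ := fun i => (fun t : ℝ => t + (-(i * h0))) ⁻¹' S' with hTr
  have hTrm : ∀ i, MeasurableSet (Tr i) := fun i => hS'm.preimage (measurable_id.add_const _)
  have hTrv : ∀ i, volume (Tr i) = volume S' := fun i =>
    measure_preimage_add_right volume (-(i * h0)) S'
  have hdis : ∀ i i' : ℕ, i < i' → i' < m → Disjoint (Tr i) (Tr i') := by
    intro i i' hii him
    rw [Set.disjoint_left]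
    intro t ht ht'
    have hv : t + (-(i * h0)) ∈ S' := ht
    have hu : t + (-(i' * h0)) ∈ S' := ht'
    set u : ℝ := t + (-(i' * h0)) with hu'
    obtain ⟨d, hid⟩ : ∃ d : ℕ, i' = i + d := ⟨i' - i, by omega⟩
    have hd1 : 1 ≤ d := by omega
    have hdm : d < m := by omega
    have huv : t + (-(i * h0)) = u + d * h0 := by
      rw [hu', hid]
      push_cast
      ring
    rw [huv] at hv
    have hnb : u ∉ Bd d := by
      intro hb'
      apply hu.2
      simp only [mem_iUnion]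
      exact ⟨d, Finset.mem_Ico.2 ⟨hd1, hdm⟩, hb'⟩
    have huS : u ∈ S := hu.1
    have hvS : u + d * h0 ∈ S := hv.1
    have h1 : ∫ s in u..(u + d * h0), Z s ^ (2 * (j + 2)) ≤
        m1 * (d * h0) * L ^ ((j + 2) ^ 2) := by
      by_contra hc
      exact hnb ⟨huS.1, not_le.1 hc⟩
    obtain ⟨ha, hb2⟩ := hdh d hd1 hdm
    have h2 := hd u huS.1 (d * h0) (by linarith) (by linarith)
    have h3 := (abs_lt.1 huS.2).2
    have h4 := (abs_lt.1 hvS.2).1
    have hd1' : (1:ℝ) ≤ d := by exact_mod_cast hd1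
    have h5 : m1 * h0 * L ^ ((j + 2) ^ 2) ≤ m1 * (d * h0) * L ^ ((j + 2) ^ 2) := by
      refine mul_le_mul_of_nonneg_right (mul_le_mul_of_nonneg_left ?_ hm1.le) (by positivity)
      nlinarith
    have h6 : m1 * h0 * L ^ ((j + 2) ^ 2) =
        2 * (m1 * κ / (2 * m) * L ^ ((j + 2) ^ 2 + (2 * j + 3))) := by
      have e : L ^ ((j + 2) ^ 2 + (2 * j + 3)) = L ^ ((j + 2) ^ 2) * L ^ (2 * j + 3) :=
        pow_add _ _ _
      rw [hh0, e]
      field_simp
    linarith
  have hsub : ∀ i ∈ Finset.range m, Tr i ⊆ Ioc X (3 * X) := by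
    intro i hi t ht
    have h1 : t + (-(i * h0)) ∈ Ioc X (2 * X) := ht.1.1
    have h2 : (i:ℝ) ≤ m := by exact_mod_cast (Finset.mem_range.1 hi).le
    have h3 : (i:ℝ) * h0 ≤ m * h0 := mul_le_mul_of_nonneg_right h2 hh0pos.le
    have h4 : 0 ≤ (i:ℝ) * h0 := by positivity
    constructor
    · linarith [h1.1]
    · linarith [h1.2]
  have hvol : (m : ENNReal) * volume S' ≤ ENNReal.ofReal (2 * X) := by
    calc (m : ENNReal) * volume S' = ∑ i ∈ Finset.range m, volume (Tr i) := by
          simp [hTrv]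
      _ = volume (⋃ i ∈ Finset.range m, Tr i) := by
          rw [measure_biUnion_finset ?_ fun i _ => hTrm i]
          intro a ha b hb' hab
          rcases lt_or_gt_of_ne hab with hlt | hlt
          · exact hdis a b hlt (Finset.mem_range.1 hb')
          · exact (hdis b a hlt (Finset.mem_range.1 ha)).symm
      _ ≤ volume (Ioc X (3 * X)) := measure_mono (by
          intro t ht
          simp only [mem_iUnion] at ht
          obtain ⟨i, hi, ht⟩ := ht
          exact hsub i hi ht)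
      _ = ENNReal.ofReal (2 * X) := by
          rw [Real.volume_Ioc]
          congr 1
          ring
  have hvr : m * volume.real S' ≤ 2 * X := by
    have h1 := ENNReal.toReal_mono ENNReal.ofReal_ne_top hvol
    rw [ENNReal.toReal_mul, ENNReal.toReal_natCast, ENNReal.toReal_ofReal (by linarith)] at h1
    exact h1
  have hS'v : volume.real S' ≤ δ / 2 * X := by
    have h1 : 4 < δ * m := by
      rw [div_lt_iff₀ hδ] at hm
      linarith
    have h2 : m * volume.real S' ≤ m * (δ / 2 * X) := by nlinarith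
    exact le_of_mul_le_mul_left h2 hm0
  have hBv : volume.real (⋃ d ∈ Finset.Ico 1 m, Bd d) ≤ δ / 2 * X := by
    calc volume.real (⋃ d ∈ Finset.Ico 1 m, Bd d) ≤ ∑ d ∈ Finset.Ico 1 m, volume.real (Bd d) :=
          measureReal_biUnion_finset_le _ _
      _ ≤ ∑ _d ∈ Finset.Ico 1 m, δ / (2 * m) * X := by
          refine Finset.sum_le_sum fun d hd' => ?_
          obtain ⟨hd1, hdm⟩ := Finset.mem_Ico.1 hd'
          obtain ⟨ha, hb2⟩ := hdh d hd1 hdm
          exact hb (d * h0) ha hb2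
      _ = ((m - 1 : ℕ) : ℝ) * (δ / (2 * m) * X) := by simp
      _ ≤ m * (δ / (2 * m) * X) := by
          refine mul_le_mul_of_nonneg_right ?_ (by positivity)
          exact_mod_cast Nat.sub_le m 1
      _ = δ / 2 * X := by field_simp
  have hcov : S ⊆ S' ∪ ⋃ d ∈ Finset.Ico 1 m, Bd d := by
    intro t ht
    by_cases hc : t ∈ ⋃ d ∈ Finset.Ico 1 m, Bd d
    · exact Or.inr hc
    · exact Or.inl ⟨ht, hc⟩
  refine (realmono hcov (a := X) (b := 2 * X) ?_).trans ((measureReal_union_le _ _).trans ?_)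
  · rintro t (ht | ht)
    · exact ht.1.1
    · simp only [mem_iUnion] at ht
      obtain ⟨d, _, ht⟩ := ht
      exact ht.1
  · linarith

/-- if the main term is too small, the remainder is of the order of the moment -/
theorem caseA {Z p : ℝ → ℝ} (hZc : Continuous Z) (hZ0 : ∀ t, 0 ≤ Z t) (n E : ℕ) {N : ℕ}
    (hp : ∀ a b, IntervalIntegrable p volume a b) {c0 : ℝ} (hc0 : 0 < c0)
    (hlow : ∀ᶠ T : ℝ in atTop, c0 * (T * Real.log T ^ N) ≤ ∫ s in T..(2 * T), Z s ^ n)
    (hps : ∀ᶠ t : ℝ in atTop, p t ≤ c0 / 2 ^ (N + 2) * Real.log t ^ N) :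
    ∀ᶠ X : ℝ in atTop, ∀ T : ℝ, X < T →
      Real.log X ^ E ≤ (∫ s in (0:ℝ)..T, Z s ^ n) - ∫ s in (0:ℝ)..T, p s := by
  set κ : ℝ := c0 / 2 ^ (N + 2) with hκ
  have hκ0 : 0 < κ := by positivity
  obtain ⟨t1, ht1⟩ := (hps.and (eventually_ge_atTop 1)).exists_forall_of_atTop
  set C0 : ℝ := ∫ s in (0:ℝ)..t1, p s with hC0
  have hzi : ∀ a b, IntervalIntegrable (fun s => Z s ^ n) volume a b := fun a b =>
    (hZc.pow n).intervalIntegrable a b
  have hmain : ∀ᶠ T : ℝ in atTop,
      Real.log T ^ E ≤ (∫ s in (0:ℝ)..T, Z s ^ n) - ∫ s in (0:ℝ)..T, p s := by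
    have hlow2 : ∀ᶠ T : ℝ in atTop, c0 * (T / 2 * Real.log (T / 2) ^ N) ≤
        ∫ s in (T / 2)..(2 * (T / 2)), Z s ^ n :=
      (tendsto_id.atTop_div_const (by norm_num : (0:ℝ) < 2)).eventually hlow
    filter_upwards [hlow2, eventually_ge_atTop t1, eventually_ge_atTop 4, ev_log E (2 / κ),
      eventually_ge_atTop (2 * C0 / κ), (Real.tendsto_log_atTop).eventually_ge_atTop 1] with
      T h1 ht1T hT4 hlE hC0T hL1
    have e2 : 2 * (T / 2) = T := by ring
    rw [e2] at h1
    set L : ℝ := Real.log T with hL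
    have h2 : L / 2 ≤ Real.log (T / 2) := by
      have h3 : L = Real.log ((T / 2) * 2) := by rw [hL]; congr 1; ring
      rw [Real.log_mul (by positivity) (by norm_num)] at h3
      have h4 : Real.log 2 ≤ Real.log (T / 2) := Real.log_le_log (by norm_num) (by linarith)
      linarith
    have h5 : (L / 2) ^ N ≤ Real.log (T / 2) ^ N := pow_le_pow_left₀ (by linarith) h2 N
    have h6 : 2 * κ * (T * L ^ N) ≤ ∫ s in (T / 2)..T, Z s ^ n := by
      refine le_trans ?_ h1
      calc 2 * κ * (T * L ^ N) = c0 * (T / 2 * (L / 2) ^ N) := by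
            rw [hκ, div_pow]
            field_simp
            ring
        _ ≤ c0 * (T / 2 * Real.log (T / 2) ^ N) := by gcongr
    have h7 : ∫ s in (T / 2)..T, Z s ^ n ≤ ∫ s in (0:ℝ)..T, Z s ^ n :=
      intervalIntegral.integral_mono_interval (by linarith) (by linarith) le_rfl
        (Eventually.of_forall fun s => pow_nonneg (hZ0 s) n) (hzi _ _)
    have h8 : ∫ s in (0:ℝ)..T, p s = C0 + ∫ s in t1..T, p s :=
      (intervalIntegral.integral_add_adjacent_intervals (hp _ _) (hp _ _)).symm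
    have ht11 : 1 ≤ t1 := (ht1 t1 le_rfl).2
    have h9 : ∫ s in t1..T, p s ≤ κ * (T * L ^ N) := by
      have h10 : ∫ s in t1..T, p s ≤ ∫ _s in t1..T, κ * L ^ N := by
        refine intervalIntegral.integral_mono_on ht1T (hp _ _) intervalIntegrable_const ?_
        intro s hs
        refine (ht1 s hs.1).1.trans ?_
        have hs1 : 1 ≤ s := ht11.trans hs.1
        have : Real.log s ^ N ≤ L ^ N := pow_le_pow_left₀ (Real.log_nonneg hs1)
          (Real.log_le_log (by linarith) hs.2) N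
        gcongr
      rw [intervalIntegral.integral_const, smul_eq_mul] at h10
      refine h10.trans ?_
      have h11 : 0 ≤ κ * L ^ N := by positivity
      nlinarith
    have h12 : T ≤ T * L ^ N := by
      have : 1 ≤ L ^ N := one_le_pow₀ hL1
      nlinarith
    have h13 : L ^ E ≤ κ * T / 2 := by
      have h14 : 2 / κ * L ^ E = L ^ E * 2 / κ := by ring
      rw [h14, div_le_iff₀ hκ0] at hlE
      linarith
    have h15 : C0 ≤ κ * T / 2 := by
      rw [div_le_iff₀ hκ0] at hC0T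
      linarith
    have h16 : κ * T ≤ κ * (T * L ^ N) := by gcongr
    rw [h8]
    linarith
  obtain ⟨T0, hT0⟩ := (hmain.and (eventually_ge_atTop 1)).exists_forall_of_atTop
  filter_upwards [eventually_ge_atTop T0, eventually_ge_atTop 1] with X hX hX1 T hT
  have h1 := (hT0 T (hX.trans hT.le)).1
  refine le_trans ?_ h1
  exact pow_le_pow_left₀ (Real.log_nonneg hX1) (Real.log_le_log (by linarith) hT.le) E

end Pool.Agent.R234.RO
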