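import Mathlib
import Pool.Agent.R234.RO.Asm

set_option autoImplicit false

/-! The remainder of the `2k`-th moment is large for most `T`: the abstract theorem. -/

namespace Pool.Agent.R234.RO

open MeasureTheory Set Filter Topology

theorem main {Z : ℝ → ℝ} (H : Hyp Z) (j : ℕ) (hj : 1 ≤ j)
    (hlow : ∃ c0 : ℝ, 0 < c0 ∧ ∀ᶠ T : ℝ in atTop,
      c0 * (T * Real.log T ^ ((j + 2) ^ 2)) ≤ ∫ s in T..(2 * T), Z s ^ (2 * (j + 2)))
    (P : Polynomial ℂ) {δ : ℝ} (hδ : 0 < δ) :
    ∃ c : ℝ, 0 < c ∧ ∀ᶠ X : ℝ in atTop,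
      volume {T : ℝ | T ∈ Icc X (2 * X) ∧
        ‖((∫ t in (0:ℝ)..T, Z t ^ (2 * (j + 2)) : ℝ) : ℂ) -
          ∫ t in (0:ℝ)..T, P.eval ((Real.log (t / (2 * Real.pi)) : ℝ) : ℂ)‖ <
          c * Real.log T ^ ((j + 2) ^ 2 + (2 * j + 3))} ≤ ENNReal.ofReal (δ * X) := by
  obtain ⟨c0, hc0, hlow⟩ := hlow
  have h2pi : 0 < 2 * Real.pi := by positivity
  set N : ℕ := (j + 2) ^ 2 with hN
  set E : ℕ := N + (2 * j + 3) with hE
  set κ : ℝ := c0 / 2 ^ (N + 2) with hκ
  have hκ0 : 0 < κ := by positivity
  set p : ℝ → ℝ := fun t => (rp P).eval (Real.log (t / (2 * Real.pi))) with hp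
  have hpi : ∀ a b, IntervalIntegrable p volume a b := fun a b => rp_int P _ h2pi a b
  have hzi : ∀ a b, IntervalIntegrable (fun s => Z s ^ (2 * (j + 2))) volume a b := fun a b =>
    (H.cont.pow _).intervalIntegrable a b
  set R : ℝ → ℝ := fun T => (∫ s in (0:ℝ)..T, Z s ^ (2 * (j + 2))) - ∫ s in (0:ℝ)..T, p s with hR
  have hRc : Continuous R :=
    (intervalIntegral.continuous_primitive hzi 0).sub (intervalIntegral.continuous_primitive hpi 0)
  have hlogdiv : Tendsto (fun t : ℝ => Real.log (t / (2 * Real.pi))) atTop atTop :=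
    Real.tendsto_log_atTop.comp (tendsto_id.atTop_div_const h2pi)
  -- the real statement
  have hreal : ∃ c : ℝ, 0 < c ∧ ∀ᶠ X : ℝ in atTop,
      volume.real {T : ℝ | T ∈ Ioc X (2 * X) ∧ |R T| < c * Real.log X ^ E} ≤ δ * X := by
    rcases dich (rp P - Polynomial.C κ * Polynomial.X ^ N) with hd | hd
    · refine caseB H j hj hRc ⟨κ / 2 ^ (N + 1), by positivity, ?_⟩ hδ
      obtain ⟨x0, hx0⟩ := hd.exists_forall_of_atTop
      have hlog : ∀ᶠ X : ℝ in atTop, max x0 (Real.log (2 * Real.pi)) ≤ Real.log X / 2 :=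
        (Real.tendsto_log_atTop.atTop_div_const (by norm_num)).eventually_ge_atTop _
      filter_upwards [hlog, eventually_ge_atTop 1,
        (Real.tendsto_log_atTop).eventually_ge_atTop 1] with X hX hX1 hL1 t ht h hh hhX
      have hx0L : x0 ≤ Real.log X / 2 := (le_max_left _ _).trans hX
      have hpiL : Real.log (2 * Real.pi) ≤ Real.log X / 2 := (le_max_right _ _).trans hX
      have h1 : R (t + h) - R t = (∫ s in t..(t + h), Z s ^ (2 * (j + 2))) -
          ∫ s in t..(t + h), p s := by
        simp only [hR]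
        rw [← intervalIntegral.integral_interval_sub_left (hzi 0 (t + h)) (hzi 0 t),
          ← intervalIntegral.integral_interval_sub_left (hpi 0 (t + h)) (hpi 0 t)]
        ring
      have h2 : 2 * (κ / 2 ^ (N + 1)) * h * Real.log X ^ N ≤ ∫ s in t..(t + h), p s := by
        have h3 : ∫ _s in t..(t + h), κ * (Real.log X / 2) ^ N ≤ ∫ s in t..(t + h), p s := by
          refine intervalIntegral.integral_mono_on (by linarith) intervalIntegrable_const
            (hpi _ _) ?_
          intro s hs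
          have hsX : X ≤ s := by linarith [ht.1, hs.1]
          have hs0 : 0 < s := by linarith
          have h4 : Real.log X / 2 ≤ Real.log (s / (2 * Real.pi)) := by
            rw [Real.log_div hs0.ne' h2pi.ne']
            have := Real.log_le_log (by linarith) hsX
            linarith
          have h5 := hx0 _ (hx0L.trans h4)
          simp only [Polynomial.eval_sub, Polynomial.eval_mul, Polynomial.eval_C,
            Polynomial.eval_pow, Polynomial.eval_X] at h5
          have h6 : (Real.log X / 2) ^ N ≤ Real.log (s / (2 * Real.pi)) ^ N :=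
            pow_le_pow_left₀ (by linarith) h4 N
          have h7 : κ * (Real.log X / 2) ^ N ≤ κ * Real.log (s / (2 * Real.pi)) ^ N := by
            gcongr
          simp only [hp]
          linarith
        rw [intervalIntegral.integral_const, smul_eq_mul] at h3
        refine le_trans (le_of_eq ?_) h3
        rw [div_pow]
        field_simp
        ring
      rw [h1]
      linarith
    · refine ⟨1, one_pos, ?_⟩
      have hps : ∀ᶠ t : ℝ in atTop, p t ≤ c0 / 2 ^ (N + 2) * Real.log t ^ N := by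
        filter_upwards [hlogdiv.eventually hd, hlogdiv.eventually_ge_atTop 0,
          eventually_ge_atTop 1] with t h1 h2 h3
        simp only [Polynomial.eval_sub, Polynomial.eval_mul, Polynomial.eval_C,
            Polynomial.eval_pow, Polynomial.eval_X] at h1
        have h4 : Real.log (t / (2 * Real.pi)) ≤ Real.log t := by
          refine Real.log_le_log (by positivity) ?_
          refine div_le_self (by linarith) ?_
          linarith [Real.pi_gt_three]
        have h5 : Real.log (t / (2 * Real.pi)) ^ N ≤ Real.log t ^ N := pow_le_pow_left₀ h2 h4 N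
        have h6 : κ * Real.log (t / (2 * Real.pi)) ^ N ≤ κ * Real.log t ^ N := by gcongr
        simp only [hp]
        linarith
      have hA := caseA H.cont H.nn (2 * (j + 2)) E hpi hc0 hlow hps
      filter_upwards [hA, eventually_ge_atTop 0] with X hX hX0
      have hemp : {T : ℝ | T ∈ Ioc X (2 * X) ∧ |R T| < 1 * Real.log X ^ E} = ∅ := by
        ext T
        simp only [mem_setOf_eq, mem_empty_iff_false, iff_false, not_and, not_lt, one_mul]
        intro hT
        exact (hX T hT.1).trans (le_abs_self _)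
      rw [hemp]
      simp
      positivity
  obtain ⟨c, hc, hreal⟩ := hreal
  refine ⟨c / 2 ^ E, by positivity, ?_⟩
  filter_upwards [hreal, eventually_ge_atTop 3] with X hX hX3
  have hsub : {T : ℝ | T ∈ Icc X (2 * X) ∧
        ‖((∫ t in (0:ℝ)..T, Z t ^ (2 * (j + 2)) : ℝ) : ℂ) -
          ∫ t in (0:ℝ)..T, P.eval ((Real.log (t / (2 * Real.pi)) : ℝ) : ℂ)‖ <
          c / 2 ^ E * Real.log T ^ E} ⊆
      {X} ∪ {T : ℝ | T ∈ Ioc X (2 * X) ∧ |R T| < c * Real.log X ^ E} := by
    rintro T ⟨hT, hlt⟩
    rcases eq_or_lt_of_le hT.1 with he | hgt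
    · exact Or.inl he.symm
    · refine Or.inr ⟨⟨hgt, hT.2⟩, ?_⟩
      have h1 : |R T| ≤ ‖((∫ t in (0:ℝ)..T, Z t ^ (2 * (j + 2)) : ℝ) : ℂ) -
          ∫ t in (0:ℝ)..T, P.eval ((Real.log (t / (2 * Real.pi)) : ℝ) : ℂ)‖ := by
        refine le_trans (le_of_eq ?_) (Complex.abs_re_le_norm _)
        rw [Complex.sub_re, Complex.ofReal_re, rp_integral P _ h2pi]
      have h2 : Real.log T ≤ 2 * Real.log X := log3 hX3 (by linarith) (by linarith [hT.2])
      have h3 : 0 ≤ Real.log T := Real.log_nonneg (by linarith)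
      have h4 : Real.log T ^ E ≤ (2 * Real.log X) ^ E := pow_le_pow_left₀ h3 h2 E
      calc |R T| ≤ _ := h1
        _ < c / 2 ^ E * Real.log T ^ E := hlt
        _ ≤ c / 2 ^ E * (2 * Real.log X) ^ E := by gcongr
        _ = c * Real.log X ^ E := by
            rw [mul_pow]
            field_simp
  have hfin : volume {T : ℝ | T ∈ Ioc X (2 * X) ∧ |R T| < c * Real.log X ^ E} ≠ ⊤ :=
    ((measure_mono (fun T hT => hT.1)).trans_lt
      (by simp : volume (Ioc X (2 * X)) < ⊤)).ne
  calc _ ≤ _ := measure_mono hsub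
    _ ≤ volume {X} + volume {T : ℝ | T ∈ Ioc X (2 * X) ∧ |R T| < c * Real.log X ^ E} :=
        measure_union_le _ _
    _ = volume {T : ℝ | T ∈ Ioc X (2 * X) ∧ |R T| < c * Real.log X ^ E} := by simp
    _ = ENNReal.ofReal (volume.real {T : ℝ | T ∈ Ioc X (2 * X) ∧ |R T| < c * Real.log X ^ E}) :=
        (ofReal_measureReal hfin).symm
    _ ≤ _ := ENNReal.ofReal_le_ofReal hX

end Pool.Agent.R234.RO
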