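import Pool.Agent.W924.MZ.LocC
import Pool.Agent.W32.MZ.Pow
import Pool.Agent.W721.MZ.Lip
import Pool.Agent.W917.MZ.CMP
import Pool.Agent.W903.GP.CO
import Pool.Agent.W32.GP.Tau
import Pool.Agent.W22.QS.Basic
import Pool.Agent.W61.MZ.Ker
import Pool.Agent.W858.MZ.Res2
import Pool.Agent.W338.QS.Line
import Pool.Agent.TH158.FM.Rng
import Pool.Agent.R234.RO.Main

set_option autoImplicit false

/-! The zeta function satisfies the hypotheses of the abstract theorem. -/

namespace Pool.Agent.R234.RO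

open MeasureTheory Set Filter Topology Pool.Agent.W188.QS Pool.Agent.W188.GP Pool.Agent.W188.MZ

theorem cmp : StCmp := by
  have a_tau : StTau := Pool.Agent.W32.GPT.gp_tau
  have a_line : StLine := Pool.Agent.W338.QS.qs_line
  have a_co : StCo := Pool.Agent.W903.GP.CO.gp_co a_tau
  have a_locc : StLocC := Pool.Agent.W924.MZ.mz_locc a_tau a_line Pool.Agent.W22.QS.qs_basic
    Pool.Agent.W61.MZ.mz_ker Pool.Agent.W858.MZ.mz_res2
  have a_spc : StSpc := Pool.Agent.W721.MZ.mz_spc a_tau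
  have a_pow : StPow := Pool.Agent.W32.MZ.mz_pow a_spc a_tau
  exact Pool.Agent.W917.MZ.CMP.mz_cmp a_locc a_pow a_spc a_tau a_co

theorem zz_hyp : Hyp ZZ where
  cont := Pool.Agent.W917.MZ.CMP.zz_cont
  nn := Pool.Agent.W917.MZ.CMP.zz_nonneg
  sup := by
    obtain ⟨C, T₀, hC, h⟩ := cmp 4 (by norm_num)
    obtain ⟨-, -, -, -, -, htau, -, -, -, -, -, -, hnd⟩ : StTau := Pool.Agent.W32.GPT.gp_tau
    have hcont : Continuous fun s => ZZ s ^ 4 := Pool.Agent.W917.MZ.CMP.zz_cont.pow 4
    refine ⟨2 * C, max T₀ 3, by positivity, ?_⟩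
    intro t ht
    have ht0 : T₀ ≤ t := (le_max_left _ _).trans ht
    have ht3 : 3 ≤ t := (le_max_right _ _).trans ht
    have hL1 : 1 ≤ Real.log t := by
      rw [Real.le_log_iff_exp_le (by linarith)]
      linarith [Real.exp_one_lt_d9]
    have h1 := (h t (vv t) (t - 1) t ht0 (by linarith) (by linarith) (by linarith)).2
    have h2 : ZZ t ^ (4:ℝ) ≤ DD 4 (vv t) (t - 1) t := by
      have hm : (0:ℤ) ∈ nd (vv t) (t - 1) t := by
        rw [hnd]
        simp [htau]
      have h3 := Finset.single_le_sum (f := fun n : ℤ => ZZ (tau (n + vv t)) ^ (4:ℝ))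
        (fun n _ => Pool.Agent.W917.MZ.CMP.zzp_nonneg _ _) hm
      simpa [DD, htau] using h3
    have e4 : ∀ s : ℝ, ZZ s ^ (4:ℝ) = ZZ s ^ (4:ℕ) := by
      intro s
      rw [← Real.rpow_natCast]
      norm_num
    simp only [e4] at h1 h2
    have h5 : ∫ s in (t - 1 - 2 * Real.log t)..(t + 2 * Real.log t), ZZ s ^ 4 ≤
        ∫ s in (t - 3 * Real.log t)..(t + 3 * Real.log t), ZZ s ^ 4 := by
      refine intervalIntegral.integral_mono_interval ?_ ?_ ?_
        (Eventually.of_forall fun s => pow_nonneg (Pool.Agent.W917.MZ.CMP.zz_nonneg s) 4)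
        (hcont.intervalIntegrable _ _) <;> linarith
    have h6 : t ^ (-((4:ℝ) / 3)) ≤ 1 := Real.rpow_le_one_of_one_le_of_nonpos (by linarith) (by norm_num)
    have h7 : 0 ≤ ∫ s in (t - 3 * Real.log t)..(t + 3 * Real.log t), ZZ s ^ 4 :=
      intervalIntegral.integral_nonneg (by linarith)
        fun s _ => pow_nonneg (Pool.Agent.W917.MZ.CMP.zz_nonneg s) 4
    have h8 : Real.log t * (∫ s in (t - 1 - 2 * Real.log t)..(t + 2 * Real.log t), ZZ s ^ 4) ≤
        Real.log t * ∫ s in (t - 3 * Real.log t)..(t + 3 * Real.log t), ZZ s ^ 4 :=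
      mul_le_mul_of_nonneg_left h5 (by linarith)
    have h9 : 0 ≤ Real.log t * ∫ s in (t - 3 * Real.log t)..(t + 3 * Real.log t), ZZ s ^ 4 :=
      mul_nonneg (by linarith) h7
    calc ZZ t ^ 4 ≤ _ := h2
      _ ≤ _ := h1
      _ ≤ C * (2 * (Real.log t *
          (∫ s in (t - 3 * Real.log t)..(t + 3 * Real.log t), ZZ s ^ 4) + 1)) := by
          refine mul_le_mul_of_nonneg_left ?_ hC.le
          have e : t - (t - 1) + 1 = 2 := by ring
          rw [e]
          linarith
      _ = _ := by ring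
  four := by
    refine ⟨4 / 5, 1000, by norm_num, ?_⟩
    intro T hT
    have h := Pool.Agent.TH158.FM.fourth_all T hT
    have e : ∀ t : ℝ, ‖riemannZeta (Pool.Agent.TH158.FM.pt (1 / 2) t)‖ = ZZ t := by
      intro t
      rw [Pool.Agent.TH158.FM.pt_half]
      rfl
    simp only [e] at h
    exact h

end Pool.Agent.R234.RO
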