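import Mathlib
import Pool.Agent.R234.RO.Bad

set_option autoImplicit false

/-! The means of the remainder of the `2k`-th moment. -/

namespace Pool.Agent.R234.RO

open MeasureTheory Set Filter Topology

theorem pow3 {x y z : ℝ} (hx : 0 ≤ x) (hy : 0 ≤ y) (hz : 0 ≤ z) (q : ℕ) :
    (x + y + z) ^ q ≤ 3 ^ q * (x ^ q + y ^ q + z ^ q) := by
  have hxq : 0 ≤ x ^ q := by positivity
  have hyq : 0 ≤ y ^ q := by positivity
  have hzq : 0 ≤ z ^ q := by positivity
  set M : ℝ := max x (max y z) with hM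
  have h1 : x ≤ M := le_max_left _ _
  have h2 : y ≤ M := (le_max_left _ _).trans (le_max_right _ _)
  have h3 : z ≤ M := (le_max_right _ _).trans (le_max_right _ _)
  have h4 : (x + y + z) ^ q ≤ (3 * M) ^ q := pow_le_pow_left₀ (by positivity) (by linarith) q
  have h5 : M ^ q ≤ x ^ q + y ^ q + z ^ q := by
    rcases max_cases x (max y z) with ⟨h, _⟩ | ⟨h, _⟩
    · rw [hM, h]; linarith
    · rcases max_cases y z with ⟨h', _⟩ | ⟨h', _⟩
      · rw [hM, h, h']; linarith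
      · rw [hM, h, h']; linarith
  calc (x + y + z) ^ q ≤ (3 * M) ^ q := h4
    _ = 3 ^ q * M ^ q := mul_pow _ _ _
    _ ≤ _ := by gcongr

/-- size of the main term on `[X, 4 X]` -/
theorem poly_size (P : Polynomial ℂ) : ∃ A : ℝ, 0 < A ∧ ∀ᶠ X : ℝ in atTop, ∀ t ∈ Icc X (4 * X),
    ‖P.eval ((Real.log (t / (2 * Real.pi)) : ℝ) : ℂ)‖ ≤ A * Real.log X ^ P.natDegree := by
  have h2pi : 0 < 2 * Real.pi := by positivity
  refine ⟨(∑ i ∈ Finset.range (P.natDegree + 1), ‖P.coeff i‖) + 1, by positivity, ?_⟩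
  filter_upwards [(Real.tendsto_log_atTop).eventually_ge_atTop 1,
    eventually_ge_atTop (2 * Real.pi), eventually_ge_atTop 1] with X hL hX hX1 t ht
  have ht0 : 0 < t := by linarith [ht.1]
  have h1 : 0 ≤ Real.log (t / (2 * Real.pi)) := by
    apply Real.log_nonneg
    rw [le_div_iff₀ h2pi]
    linarith [ht.1]
  have h2 : Real.log (t / (2 * Real.pi)) ≤ Real.log X := by
    refine Real.log_le_log (by positivity) ?_
    rw [div_le_iff₀ h2pi]
    nlinarith [ht.2, Real.pi_gt_three]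
  rw [Polynomial.eval_eq_sum_range, add_mul, one_mul, Finset.sum_mul]
  have h3 : ‖∑ i ∈ Finset.range (P.natDegree + 1),
      P.coeff i * ((Real.log (t / (2 * Real.pi)) : ℝ) : ℂ) ^ i‖ ≤
      ∑ i ∈ Finset.range (P.natDegree + 1), ‖P.coeff i‖ * Real.log X ^ P.natDegree := by
    refine norm_sum_le_of_le _ fun i hi => ?_
    rw [norm_mul, norm_pow, Complex.norm_real, Real.norm_of_nonneg h1]
    refine mul_le_mul_of_nonneg_left ?_ (norm_nonneg _)
    calc Real.log (t / (2 * Real.pi)) ^ i ≤ Real.log X ^ i := pow_le_pow_left₀ h1 h2 i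
      _ ≤ Real.log X ^ P.natDegree :=
          pow_le_pow_right₀ hL (Nat.lt_succ_iff.1 (Finset.mem_range.1 hi))
  have h4 : 0 ≤ Real.log X ^ P.natDegree := by positivity
  linarith

/-- the remainder -/
noncomputable def Rc (Z : ℝ → ℝ) (n : ℕ) (P : Polynomial ℂ) (T : ℝ) : ℂ :=
  ((∫ t in (0:ℝ)..T, Z t ^ n : ℝ) : ℂ) -
    ∫ t in (0:ℝ)..T, P.eval ((Real.log (t / (2 * Real.pi)) : ℝ) : ℂ)

theorem Rc_cont {Z : ℝ → ℝ} (hZ : Continuous Z) (n : ℕ) (P : Polynomial ℂ) :
    Continuous (Rc Z n P) := by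
  have h1 := intervalIntegral.continuous_primitive
    (fun a b => (hZ.pow n).intervalIntegrable (μ := volume) a b) 0
  have h2 := intervalIntegral.continuous_primitive
    (fun a b => poly_int P (2 * Real.pi) (by positivity) a b) 0
  exact (Complex.continuous_ofReal.comp h1).sub h2

theorem Rc_diff {Z : ℝ → ℝ} (hZ : Continuous Z) (n : ℕ) (P : Polynomial ℂ) {X A : ℝ} {N : ℕ}
    (hA : ∀ t ∈ Icc X (4 * X),
      ‖P.eval ((Real.log (t / (2 * Real.pi)) : ℝ) : ℂ)‖ ≤ A * Real.log X ^ N)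
    {a b : ℝ} (ha : X ≤ a) (hab : a ≤ b) (hb : b ≤ 4 * X) :
    ∫ t in a..b, Z t ^ n ≤ ‖Rc Z n P b‖ + ‖Rc Z n P a‖ + A * Real.log X ^ N * (b - a) := by
  have h2pi : 0 < 2 * Real.pi := by positivity
  have hzi : ∀ a b, IntervalIntegrable (fun s => Z s ^ n) volume a b := fun a b =>
    (hZ.pow n).intervalIntegrable a b
  have hpi := poly_int P (2 * Real.pi) h2pi
  have h1 : ((∫ t in a..b, Z t ^ n : ℝ) : ℂ) = Rc Z n P b - Rc Z n P a +
      ∫ t in a..b, P.eval ((Real.log (t / (2 * Real.pi)) : ℝ) : ℂ) := by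
    simp only [Rc]
    rw [← intervalIntegral.integral_interval_sub_left (hzi 0 b) (hzi 0 a),
      ← intervalIntegral.integral_interval_sub_left (hpi 0 b) (hpi 0 a)]
    push_cast
    ring
  have h2 : ‖∫ t in a..b, P.eval ((Real.log (t / (2 * Real.pi)) : ℝ) : ℂ)‖ ≤
      A * Real.log X ^ N * |b - a| := by
    refine intervalIntegral.norm_integral_le_of_norm_le_const fun t ht => ?_
    rw [uIoc_of_le hab] at ht
    exact hA t ⟨ha.trans ht.1.le, ht.2.trans hb⟩
  rw [abs_of_nonneg (by linarith)] at h2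
  calc ∫ t in a..b, Z t ^ n ≤ ‖((∫ t in a..b, Z t ^ n : ℝ) : ℂ)‖ := by
        rw [Complex.norm_real]
        exact le_abs_self _
    _ ≤ ‖Rc Z n P b - Rc Z n P a‖ +
        ‖∫ t in a..b, P.eval ((Real.log (t / (2 * Real.pi)) : ℝ) : ℂ)‖ := by
        rw [h1]
        exact norm_add_le _ _
    _ ≤ _ := add_le_add (norm_sub_le _ _) h2

/-- the `q`-th mean of the remainder -/
theorem meanq {Z : ℝ → ℝ} (hZ : Continuous Z) (hZ0 : ∀ t, 0 ≤ Z t) (k q : ℕ) (hq : 1 ≤ q)
    (hsup : ∃ C t0 : ℝ, 0 < C ∧ ∀ t, t0 ≤ t → Z t ^ (2 * k) ≤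
      C * (Real.log t * (∫ s in (t - 3 * Real.log t)..(t + 3 * Real.log t), Z s ^ (2 * k)) + 1))
    (hlow : ∃ c0 : ℝ, 0 < c0 ∧ ∀ᶠ T : ℝ in atTop,
      c0 * (T * Real.log T ^ ((k * q) ^ 2)) ≤ ∫ s in T..(2 * T), Z s ^ (2 * (k * q)))
    (P : Polynomial ℂ) (hP : P.natDegree + 2 < k ^ 2 * q) :
    ∃ c : ℝ, 0 < c ∧ ∀ᶠ X : ℝ in atTop,
      c * (X * Real.log X ^ (q * (k ^ 2 * q - 1))) ≤ ∫ T in X..(4 * X), ‖Rc Z (2 * k) P T‖ ^ q := by
  obtain ⟨C, t0, hC, hsup⟩ := hsup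
  obtain ⟨c0, hc0, hlow⟩ := hlow
  obtain ⟨A, hA0, hA⟩ := poly_size P
  set N : ℕ := P.natDegree with hN
  set B : ℝ := 24 * A + 1 with hB
  have hB0 : 0 < B := by positivity
  have hlow2 : ∀ᶠ X : ℝ in atTop, c0 * (3 / 2 * X * Real.log (3 / 2 * X) ^ ((k * q) ^ 2)) ≤
      ∫ s in (3 / 2 * X)..(2 * (3 / 2 * X)), Z s ^ (2 * (k * q)) :=
    (tendsto_id.const_mul_atTop (by norm_num : (0:ℝ) < 3 / 2)).eventually hlow
  set D : ℝ := 3 ^ q * (C * B) ^ q * (3 / 2) / (c0 / 2) with hD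
  refine ⟨c0 / 2 / (3 ^ q * (2 * C) ^ q * 2), by positivity, ?_⟩
  filter_upwards [hA, hlow2, eventually_ge_atTop 3, eventually_ge_atTop t0, ev_log 1 12,
    (Real.tendsto_log_atTop).eventually_ge_atTop (max 1 D)] with X hAX hl hX ht0 hl12 hLL
  set L : ℝ := Real.log X with hL
  have hL1 : 1 ≤ L := (le_max_left _ _).trans hLL
  have hLD : D ≤ L := (le_max_right _ _).trans hLL
  rw [pow_one] at hl12
  set Rn : ℝ → ℝ := fun T => ‖Rc Z (2 * k) P T‖ with hRn
  have hRc : Continuous Rn := (Rc_cont hZ _ P).norm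
  have hR0 : ∀ T, 0 ≤ Rn T := fun T => norm_nonneg _
  have hRqc : Continuous fun T => Rn T ^ q := hRc.pow q
  set Y : ℝ := 3 / 2 * X with hY
  have h2Y : 2 * Y = 3 * X := by rw [hY]; ring
  have hpt : ∀ s ∈ Icc Y (2 * Y), Z s ^ (2 * (k * q)) ≤
      3 ^ q * ((2 * C) ^ q * L ^ q * Rn (s + 6 * L) ^ q + (2 * C) ^ q * L ^ q * Rn (s - 6 * L) ^ q +
        (C * B) ^ q * L ^ ((N + 2) * q)) := by
    intro s hs
    have hsX : X ≤ s := by linarith [hs.1]
    have hs3 : s ≤ 3 * X := by linarith [hs.2]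
    have hlog : Real.log s ≤ 2 * L := log3 hX (by linarith) hs3
    have hlog0 : 0 ≤ Real.log s := Real.log_nonneg (by linarith)
    have h1 := hsup s (by linarith)
    have h2 : ∫ u in (s - 3 * Real.log s)..(s + 3 * Real.log s), Z u ^ (2 * k) ≤
        ∫ u in (s - 6 * L)..(s + 6 * L), Z u ^ (2 * k) := by
      refine intervalIntegral.integral_mono_interval ?_ ?_ ?_
        (Eventually.of_forall fun u => pow_nonneg (hZ0 u) _)
        ((hZ.pow _).intervalIntegrable _ _) <;> linarith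
    have h3 : 0 ≤ ∫ u in (s - 3 * Real.log s)..(s + 3 * Real.log s), Z u ^ (2 * k) :=
      intervalIntegral.integral_nonneg (by linarith) fun u _ => pow_nonneg (hZ0 u) _
    have h4 := Rc_diff hZ (2 * k) P hAX (a := s - 6 * L) (b := s + 6 * L)
      (by linarith [hs.1]) (by linarith) (by linarith)
    have h5 : Z s ^ (2 * k) ≤ C * (2 * L * (Rn (s + 6 * L) + Rn (s - 6 * L) +
        A * L ^ N * (12 * L)) + 1) := by
      refine h1.trans (mul_le_mul_of_nonneg_left (add_le_add_left ?_ 1) hC.le)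
      refine mul_le_mul hlog ?_ h3 (by linarith)
      refine h2.trans (h4.trans (le_of_eq ?_))
      ring
    have h6 : Z s ^ (2 * k) ≤ 2 * C * L * Rn (s + 6 * L) + 2 * C * L * Rn (s - 6 * L) +
        C * B * L ^ (N + 2) := by
      refine h5.trans ?_
      have h7 : 1 ≤ L ^ (N + 2) := one_le_pow₀ hL1
      have e : L ^ (N + 2) = L ^ N * L ^ 2 := pow_add _ _ _
      have h8 : C * (2 * L * (Rn (s + 6 * L) + Rn (s - 6 * L) + A * L ^ N * (12 * L)) + 1) =
          2 * C * L * Rn (s + 6 * L) + 2 * C * L * Rn (s - 6 * L) +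
          C * (24 * A * L ^ (N + 2) + 1) := by
        rw [e]
        ring
      rw [h8, hB]
      have h9 : C * (24 * A * L ^ (N + 2) + 1) ≤ C * (24 * A + 1) * L ^ (N + 2) := by
        have e9 : C * (24 * A + 1) * L ^ (N + 2) = C * ((24 * A + 1) * L ^ (N + 2)) := by ring
        rw [e9]
        refine mul_le_mul_of_nonneg_left ?_ hC.le
        linarith
      linarith
    have hL0 : 0 ≤ L := by linarith
    calc Z s ^ (2 * (k * q)) = (Z s ^ (2 * k)) ^ q := by
          rw [← pow_mul]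
          congr 1
          ring
      _ ≤ (2 * C * L * Rn (s + 6 * L) + 2 * C * L * Rn (s - 6 * L) +
          C * B * L ^ (N + 2)) ^ q := pow_le_pow_left₀ (pow_nonneg (hZ0 s) _) h6 q
      _ ≤ 3 ^ q * ((2 * C * L * Rn (s + 6 * L)) ^ q + (2 * C * L * Rn (s - 6 * L)) ^ q +
          (C * B * L ^ (N + 2)) ^ q) := by
          have a1 := hR0 (s + 6 * L)
          have a2 := hR0 (s - 6 * L)
          exact pow3 (by positivity) (by positivity) (by positivity) q
      _ = _ := by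
          rw [mul_pow, mul_pow (2 * C) L, mul_pow (2 * C * L) (Rn (s - 6 * L)),
            mul_pow (2 * C) L, mul_pow (C * B), ← pow_mul L]
  have hL0 : 0 < L := by linarith
  have hYY : Y ≤ 2 * Y := by linarith
  have hint : ∫ s in Y..(2 * Y), Z s ^ (2 * (k * q)) ≤
      3 ^ q * ((2 * C) ^ q * L ^ q * (∫ s in Y..(2 * Y), Rn (s + 6 * L) ^ q) +
        (2 * C) ^ q * L ^ q * (∫ s in Y..(2 * Y), Rn (s - 6 * L) ^ q) +
        (C * B) ^ q * L ^ ((N + 2) * q) * Y) := by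
    have i1 : IntervalIntegrable (fun s => (2 * C) ^ q * L ^ q * Rn (s + 6 * L) ^ q) volume Y
        (2 * Y) := ((hRqc.comp (continuous_id.add continuous_const)).const_mul _).intervalIntegrable _ _
    have i2 : IntervalIntegrable (fun s => (2 * C) ^ q * L ^ q * Rn (s - 6 * L) ^ q) volume Y
        (2 * Y) := ((hRqc.comp (continuous_id.sub continuous_const)).const_mul _).intervalIntegrable _ _
    have i3 : IntervalIntegrable (fun _s : ℝ => (C * B) ^ q * L ^ ((N + 2) * q)) volume Y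
        (2 * Y) := intervalIntegrable_const
    have h := intervalIntegral.integral_mono_on hYY ((hZ.pow _).intervalIntegrable _ _)
      (((i1.add i2).add i3).const_mul (3 ^ q)) hpt
    refine h.trans (le_of_eq ?_)
    rw [intervalIntegral.integral_const_mul, intervalIntegral.integral_add (i1.add i2) i3,
      intervalIntegral.integral_add i1 i2, intervalIntegral.integral_const_mul,
      intervalIntegral.integral_const_mul, intervalIntegral.integral_const, smul_eq_mul]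
    ring
  set I : ℝ := ∫ T in X..(4 * X), Rn T ^ q with hI
  have hsh1 : ∫ s in Y..(2 * Y), Rn (s + 6 * L) ^ q ≤ I := by
    rw [intervalIntegral.integral_comp_add_right (fun T => Rn T ^ q) (6 * L)]
    refine intervalIntegral.integral_mono_interval ?_ ?_ ?_
      (Eventually.of_forall fun u => pow_nonneg (hR0 u) _)
      (hRqc.intervalIntegrable _ _) <;> linarith
  have hsh2 : ∫ s in Y..(2 * Y), Rn (s - 6 * L) ^ q ≤ I := by
    rw [intervalIntegral.integral_comp_sub_right (fun T => Rn T ^ q) (6 * L)]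
    refine intervalIntegral.integral_mono_interval ?_ ?_ ?_
      (Eventually.of_forall fun u => pow_nonneg (hR0 u) _)
      (hRqc.intervalIntegrable _ _) <;> linarith
  have hYX : X ≤ Y := by linarith
  have hlogY : L ≤ Real.log Y := Real.log_le_log (by linarith) hYX
  have hkq : (k * q) ^ 2 = q * (k ^ 2 * q - 1) + q := by
    have h1 : 1 ≤ k ^ 2 * q := by omega
    have h2 : q * (k ^ 2 * q - 1) + q = q * (k ^ 2 * q - 1 + 1) := by ring
    rw [h2, Nat.sub_add_cancel h1]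
    ring
  have hNq : (N + 2) * q + 1 ≤ (k * q) ^ 2 := by
    have h1 : N + 3 ≤ k ^ 2 * q := by omega
    have h2 : (N + 3) * q ≤ k ^ 2 * q * q := Nat.mul_le_mul_right q h1
    have h3 : k ^ 2 * q * q = (k * q) ^ 2 := by ring
    have h4 : (N + 3) * q = (N + 2) * q + q := by ring
    omega
  have hlow3 : c0 * (X * L ^ ((k * q) ^ 2)) ≤ ∫ s in Y..(2 * Y), Z s ^ (2 * (k * q)) := by
    refine le_trans ?_ hl
    have : L ^ ((k * q) ^ 2) ≤ Real.log Y ^ ((k * q) ^ 2) := pow_le_pow_left₀ hL0.le hlogY _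
    gcongr
  have hsmall : 3 ^ q * ((C * B) ^ q * L ^ ((N + 2) * q) * Y) ≤
      c0 / 2 * (X * L ^ ((k * q) ^ 2)) := by
    have h1 : L ^ ((N + 2) * q) * L ≤ L ^ ((k * q) ^ 2) := by
      rw [← pow_succ]
      exact pow_le_pow_right₀ hL1 hNq
    have h2 : 3 ^ q * (C * B) ^ q * (3 / 2) ≤ c0 / 2 * L := by
      rw [hD, div_le_iff₀ (by positivity)] at hLD
      linarith
    calc 3 ^ q * ((C * B) ^ q * L ^ ((N + 2) * q) * Y) =
        (3 ^ q * (C * B) ^ q * (3 / 2)) * (L ^ ((N + 2) * q) * X) := by rw [hY]; ring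
      _ ≤ (c0 / 2 * L) * (L ^ ((N + 2) * q) * X) := by
          refine mul_le_mul_of_nonneg_right h2 (by positivity)
      _ = c0 / 2 * (X * (L ^ ((N + 2) * q) * L)) := by ring
      _ ≤ _ := by gcongr
  have hmain : c0 / 2 * (X * L ^ ((k * q) ^ 2)) ≤ 3 ^ q * (2 * C) ^ q * 2 * (L ^ q * I) := by
    have h1 : 3 ^ q * ((2 * C) ^ q * L ^ q * (∫ s in Y..(2 * Y), Rn (s + 6 * L) ^ q) +
        (2 * C) ^ q * L ^ q * (∫ s in Y..(2 * Y), Rn (s - 6 * L) ^ q) +
        (C * B) ^ q * L ^ ((N + 2) * q) * Y) ≤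
        3 ^ q * ((2 * C) ^ q * L ^ q * I + (2 * C) ^ q * L ^ q * I +
        (C * B) ^ q * L ^ ((N + 2) * q) * Y) := by gcongr
    have h2 : 3 ^ q * ((2 * C) ^ q * L ^ q * I + (2 * C) ^ q * L ^ q * I +
        (C * B) ^ q * L ^ ((N + 2) * q) * Y) = 3 ^ q * (2 * C) ^ q * 2 * (L ^ q * I) +
        3 ^ q * ((C * B) ^ q * L ^ ((N + 2) * q) * Y) := by ring
    linarith
  rw [hkq, pow_add] at hmain
  have hLq : 0 < L ^ q := by positivity
  have h1 : c0 / 2 * (X * L ^ (q * (k ^ 2 * q - 1))) ≤ 3 ^ q * (2 * C) ^ q * 2 * I := by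
    refine le_of_mul_le_mul_left ?_ hLq
    calc L ^ q * (c0 / 2 * (X * L ^ (q * (k ^ 2 * q - 1)))) =
        c0 / 2 * (X * (L ^ (q * (k ^ 2 * q - 1)) * L ^ q)) := by ring
      _ ≤ 3 ^ q * (2 * C) ^ q * 2 * (L ^ q * I) := hmain
      _ = _ := by ring
  rw [div_mul_eq_mul_div, div_le_iff₀ (by positivity)]
  linarith

end Pool.Agent.R234.RO
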