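import Pool.Agent.W188.QS.Asm3
import Pool.Agent.R234.RO.Inst
import Pool.Agent.R234.RO.Mean

set_option autoImplicit false

/-! The remainder of the `2k`-th moment of the zeta function. -/

namespace Pool.Agent.R234.RO

open MeasureTheory Set Filter Topology Pool.Agent.W188.QS Pool.Agent.W188.GP Pool.Agent.W188.MZ

theorem zz_low (k : ℕ) (hk : 1 ≤ k) : ∃ c0 : ℝ, 0 < c0 ∧ ∀ᶠ T : ℝ in atTop,
    c0 * (T * Real.log T ^ (k ^ 2)) ≤ ∫ s in T..(2 * T), ZZ s ^ (2 * k) := by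
  obtain ⟨c, hc, h⟩ := Pool.Agent.W188.QS.low hk
  refine ⟨c, hc, ?_⟩
  filter_upwards [h] with T hT
  have e : Real.log T ^ ((k : ℝ) ^ 2) = Real.log T ^ (k ^ 2) := by
    rw [← Real.rpow_natCast (Real.log T) (k ^ 2)]
    push_cast
    rfl
  rw [e] at hT
  exact hT

theorem zz_sup (k : ℕ) (hk : 1 ≤ k) : ∃ C t0 : ℝ, 0 < C ∧ ∀ t, t0 ≤ t → ZZ t ^ (2 * k) ≤
      C * (Real.log t * (∫ s in (t - 3 * Real.log t)..(t + 3 * Real.log t), ZZ s ^ (2 * k)) + 1) := by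
  have hk0 : (0:ℝ) < ((2 * k : ℕ) : ℝ) := by
    have : 0 < 2 * k := by omega
    exact_mod_cast this
  obtain ⟨C, T₀, hC, h⟩ := cmp ((2 * k : ℕ) : ℝ) hk0
  obtain ⟨-, -, -, -, -, htau, -, -, -, -, -, -, hnd⟩ : StTau := Pool.Agent.W32.GPT.gp_tau
  have hcont : Continuous fun s => ZZ s ^ (2 * k) := Pool.Agent.W917.MZ.CMP.zz_cont.pow _
  refine ⟨2 * C, max T₀ 3, by positivity, ?_⟩
  intro t ht
  have ht0 : T₀ ≤ t := (le_max_left _ _).trans ht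
  have ht3 : 3 ≤ t := (le_max_right _ _).trans ht
  have hL1 : 1 ≤ Real.log t := by
    rw [Real.le_log_iff_exp_le (by linarith)]
    linarith [Real.exp_one_lt_d9]
  have h1 := (h t (vv t) (t - 1) t ht0 (by linarith) (by linarith) (by linarith)).2
  have h2 : ZZ t ^ ((2 * k : ℕ) : ℝ) ≤ DD ((2 * k : ℕ) : ℝ) (vv t) (t - 1) t := by
    have hm : (0:ℤ) ∈ nd (vv t) (t - 1) t := by
      rw [hnd]
      simp [htau]
    have h3 := Finset.single_le_sum (f := fun n : ℤ => ZZ (tau (n + vv t)) ^ ((2 * k : ℕ) : ℝ))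
      (fun n _ => Pool.Agent.W917.MZ.CMP.zzp_nonneg _ _) hm
    simpa [DD, htau] using h3
  simp only [Real.rpow_natCast] at h1 h2
  have h5 : ∫ s in (t - 1 - 2 * Real.log t)..(t + 2 * Real.log t), ZZ s ^ (2 * k) ≤
      ∫ s in (t - 3 * Real.log t)..(t + 3 * Real.log t), ZZ s ^ (2 * k) := by
    refine intervalIntegral.integral_mono_interval ?_ ?_ ?_
      (Eventually.of_forall fun s => pow_nonneg (Pool.Agent.W917.MZ.CMP.zz_nonneg s) _)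
      (hcont.intervalIntegrable _ _) <;> linarith
  have h6 : t ^ (-(((2 * k : ℕ) : ℝ) / 3)) ≤ 1 :=
    Real.rpow_le_one_of_one_le_of_nonpos (by linarith) (by linarith)
  have h8 : Real.log t * (∫ s in (t - 1 - 2 * Real.log t)..(t + 2 * Real.log t), ZZ s ^ (2 * k)) ≤
      Real.log t * ∫ s in (t - 3 * Real.log t)..(t + 3 * Real.log t), ZZ s ^ (2 * k) :=
    mul_le_mul_of_nonneg_left h5 (by linarith)
  have h7 : 0 ≤ ∫ s in (t - 3 * Real.log t)..(t + 3 * Real.log t), ZZ s ^ (2 * k) :=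
    intervalIntegral.integral_nonneg (by linarith)
      fun s _ => pow_nonneg (Pool.Agent.W917.MZ.CMP.zz_nonneg s) _
  have h9 : 0 ≤ Real.log t * ∫ s in (t - 3 * Real.log t)..(t + 3 * Real.log t), ZZ s ^ (2 * k) :=
    mul_nonneg (by linarith) h7
  calc ZZ t ^ (2 * k) ≤ _ := h2
    _ ≤ _ := h1
    _ ≤ C * (2 * (Real.log t *
        (∫ s in (t - 3 * Real.log t)..(t + 3 * Real.log t), ZZ s ^ (2 * k)) + 1)) := by
        refine mul_le_mul_of_nonneg_left ?_ hC.le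
        have e : t - (t - 1) + 1 = 2 := by ring
        rw [e]
        linarith
    _ = _ := by ring

theorem part1 (k : ℕ) (hk : 3 ≤ k) (P : Polynomial ℂ) (δ : ℝ) (hδ : 0 < δ) :
    ∃ c : ℝ, 0 < c ∧ ∀ᶠ X : ℝ in atTop,
      volume {T : ℝ | T ∈ Icc X (2 * X) ∧
        ‖((∫ t in (0:ℝ)..T, ‖riemannZeta (1 / 2 + t * Complex.I)‖ ^ (2 * k) : ℝ) : ℂ) -
          ∫ t in (0:ℝ)..T, P.eval ((Real.log (t / (2 * Real.pi)) : ℝ) : ℂ)‖ <
          c * Real.log T ^ (k ^ 2 + 2 * k - 1)} ≤ ENNReal.ofReal (δ * X) := by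
  obtain ⟨j, rfl⟩ : ∃ j, k = j + 2 := ⟨k - 2, by omega⟩
  have h := main zz_hyp j (by omega) (zz_low (j + 2) (by omega)) P hδ
  have e : (j + 2) ^ 2 + 2 * (j + 2) - 1 = (j + 2) ^ 2 + (2 * j + 3) := by omega
  rw [e]
  exact h

theorem part2 (k q : ℕ) (hk : 1 ≤ k) (hq : 1 ≤ q) (P : Polynomial ℂ)
    (hP : P.natDegree + 2 < k ^ 2 * q) :
    ∃ c : ℝ, 0 < c ∧ ∀ᶠ X : ℝ in atTop,
      c * (X * Real.log X ^ (q * (k ^ 2 * q - 1))) ≤ ∫ T in X..(4 * X),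
        ‖((∫ t in (0:ℝ)..T, ‖riemannZeta (1 / 2 + t * Complex.I)‖ ^ (2 * k) : ℝ) : ℂ) -
          ∫ t in (0:ℝ)..T, P.eval ((Real.log (t / (2 * Real.pi)) : ℝ) : ℂ)‖ ^ q :=
  meanq zz_hyp.cont zz_hyp.nn k q hq (zz_sup k hk) (zz_low (k * q) (Nat.mul_pos hk hq)) P hP

end Pool.Agent.R234.RO
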